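import Mathlib

/-!
A finitely generated ring isomorphic to its own square.

Let `A` be a ring with elements `s, t, s', t'` such that `s' s = 1 = t' t` and `s' t = 0 = t' s`.
Let `g : ℕ → A` satisfy `g (2 n + b) = s (g n) s' + b t t'`.  The subring `R` of `ℕ → A` generated by
the four constants and `g` is mapped onto `R × R` by `f ↦ (f (2 ·), f (2 · + 1))`.
-/

namespace Pool.Agent.H652Z.RingSquare

variable {A : Type} [Ring A]

/-- the sequence `g` -/
def gseq (s t s' t' : A) (n : ℕ) : A :=
  if _h : n = 0 then 0 else
    s * gseq s t s' t' (n / 2) * s' + (if n % 2 = 0 then 0 else t * t')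
decreasing_by omega

theorem gseq_even (s t s' t' : A) (n : ℕ) :
    gseq s t s' t' (2 * n) = s * gseq s t s' t' n * s' := by
  by_cases h : n = 0
  · subst h
    rw [gseq]
    simp
  · rw [gseq]
    have h1 : ¬ (2 * n = 0) := by omega
    have h2 : 2 * n / 2 = n := by omega
    have h3 : 2 * n % 2 = 0 := by omega
    simp [h1, h2, h3]

theorem gseq_odd (s t s' t' : A) (n : ℕ) :
    gseq s t s' t' (2 * n + 1) = s * gseq s t s' t' n * s' + t * t' := by
  rw [gseq]
  have h1 : ¬ (2 * n + 1 = 0) := by omega
  have h2 : (2 * n + 1) / 2 = n := by omega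
  have h3 : ¬ ((2 * n + 1) % 2 = 0) := by omega
  simp only [h1, h2, h3, dite_false, if_false]

/-- splitting a sequence into its even and odd parts -/
def splitEquiv (A : Type) [Ring A] : (ℕ → A) ≃+* (ℕ → A) × (ℕ → A) where
  toFun f := (fun n => f (2 * n), fun n => f (2 * n + 1))
  invFun p := fun n => if n % 2 = 0 then p.1 (n / 2) else p.2 (n / 2)
  left_inv f := by
    funext n
    by_cases h : n % 2 = 0
    · have : 2 * (n / 2) = n := by omega
      simp [h, this]
    · have : 2 * (n / 2) + 1 = n := by omega
      simp [h, this]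
  right_inv p := by
    ext n
    · have h2 : 2 * n / 2 = n := by omega
      have h3 : 2 * n % 2 = 0 := by omega
      simp [h2, h3]
    · have h2 : (2 * n + 1) / 2 = n := by omega
      have h3 : ¬ ((2 * n + 1) % 2 = 0) := by omega
      simp only [h2, h3, if_false]
  map_mul' f g := rfl
  map_add' f g := rfl

/-- the generators -/
def gens (s t s' t' : A) : Set (ℕ → A) :=
  {fun _ => s, fun _ => t, fun _ => s', fun _ => t', gseq s t s' t'}

theorem map_closure (s t s' t' : A) (h1 : s' * s = 1) (h2 : t' * t = 1) (h3 : s' * t = 0)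
    (h4 : t' * s = 0) :
    (Subring.closure (gens s t s' t')).map (splitEquiv A : (ℕ → A) →+* (ℕ → A) × (ℕ → A)) =
      (Subring.closure (gens s t s' t')).prod (Subring.closure (gens s t s' t')) := by
  set R := Subring.closure (gens s t s' t') with hR
  have ms : (fun _ => s) ∈ R := Subring.subset_closure (by simp [gens])
  have mt : (fun _ => t) ∈ R := Subring.subset_closure (by simp [gens])
  have ms' : (fun _ => s') ∈ R := Subring.subset_closure (by simp [gens])
  have mt' : (fun _ => t') ∈ R := Subring.subset_closure (by simp [gens])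
  have mg : gseq s t s' t' ∈ R := Subring.subset_closure (by simp [gens])
  set φ : (ℕ → A) →+* (ℕ → A) × (ℕ → A) := (splitEquiv A : (ℕ → A) →+* (ℕ → A) × (ℕ → A))
    with hφ
  have φa : ∀ f : ℕ → A, φ f = (fun n => f (2 * n), fun n => f (2 * n + 1)) := fun f => rfl
  apply le_antisymm
  · rw [Subring.map_le_iff_le_comap, hR, Subring.closure_le]
    intro x hx
    simp only [gens, Set.mem_insert_iff, Set.mem_singleton_iff] at hx
    simp only [SetLike.mem_coe, Subring.mem_comap, Subring.mem_prod, φa]
    rcases hx with rfl | rfl | rfl | rfl | rfl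
    · exact ⟨ms, ms⟩
    · exact ⟨mt, mt⟩
    · exact ⟨ms', ms'⟩
    · exact ⟨mt', mt'⟩
    · constructor
      · have : (fun n => gseq s t s' t' (2 * n)) =
            (fun _ => s) * gseq s t s' t' * (fun _ => s') := by
          funext n
          simp [gseq_even]
        rw [this]
        exact R.mul_mem (R.mul_mem ms mg) ms'
      · have : (fun n => gseq s t s' t' (2 * n + 1)) =
            (fun _ => s) * gseq s t s' t' * (fun _ => s') + (fun _ => t) * (fun _ => t') := by
          funext n
          simp [gseq_odd]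
        rw [this]
        exact R.add_mem (R.mul_mem (R.mul_mem ms mg) ms') (R.mul_mem mt mt')
  · have he : ((0, 1) : (ℕ → A) × (ℕ → A)) ∈ R.map φ := by
      refine ⟨(fun _ => t') * gseq s t s' t' * (fun _ => t), R.mul_mem (R.mul_mem mt' mg) mt, ?_⟩
      rw [φa]
      ext n
      · simp only [Pi.mul_apply, gseq_even, Pi.zero_apply]
        calc t' * (s * gseq s t s' t' n * s') * t
            = (t' * s) * gseq s t s' t' n * (s' * t) := by noncomm_ring
          _ = 0 := by rw [h4]; simp
      · simp only [Pi.mul_apply, gseq_odd, Pi.one_apply]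
        calc t' * (s * gseq s t s' t' n * s' + t * t') * t
            = (t' * s) * gseq s t s' t' n * (s' * t) + (t' * t) * (t' * t) := by noncomm_ring
          _ = 1 := by rw [h4, h2]; simp
    have hd : ∀ x ∈ R, ((x, x) : (ℕ → A) × (ℕ → A)) ∈ R.map φ := by
      intro x hx
      have : R ≤ (R.map φ).comap (RingHom.prod (RingHom.id _) (RingHom.id _)) := by
        rw [hR, Subring.closure_le]
        intro y hy
        simp only [gens, Set.mem_insert_iff, Set.mem_singleton_iff] at hy
        simp only [SetLike.mem_coe, Subring.mem_comap, RingHom.prod_apply, RingHom.id_apply]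
        rcases hy with rfl | rfl | rfl | rfl | rfl
        · exact ⟨_, ms, rfl⟩
        · exact ⟨_, mt, rfl⟩
        · exact ⟨_, ms', rfl⟩
        · exact ⟨_, mt', rfl⟩
        · refine ⟨(fun _ => s') * gseq s t s' t' * (fun _ => s),
            R.mul_mem (R.mul_mem ms' mg) ms, ?_⟩
          rw [φa]
          ext n
          · simp only [Pi.mul_apply, gseq_even]
            calc s' * (s * gseq s t s' t' n * s') * s
                = (s' * s) * gseq s t s' t' n * (s' * s) := by noncomm_ring
              _ = gseq s t s' t' n := by rw [h1]; simp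
          · simp only [Pi.mul_apply, gseq_odd]
            calc s' * (s * gseq s t s' t' n * s' + t * t') * s
                = (s' * s) * gseq s t s' t' n * (s' * s) + (s' * t) * (t' * s) := by noncomm_ring
              _ = gseq s t s' t' n := by rw [h1, h3]; simp
      exact this hx
    rintro ⟨x, y⟩ hxy
    obtain ⟨hx, hy⟩ := Subring.mem_prod.1 hxy
    have : ((x, y) : (ℕ → A) × (ℕ → A)) = (x, x) * (1 - (0, 1)) + (y, y) * (0, 1) := by
      ext n <;> simp
    rw [this]
    exact Subring.add_mem _ (Subring.mul_mem _ (hd x hx) (Subring.sub_mem _ (Subring.one_mem _) he))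
      (Subring.mul_mem _ (hd y hy) he)

/-- interleaving with zeros, at even places -/
def opS : AddMonoid.End (ℕ → ℤ) :=
  AddMonoidHom.mk' (fun f n => if n % 2 = 0 then f (n / 2) else 0) (by
    intro f g
    funext n
    by_cases h : n % 2 = 0 <;> simp [h])

/-- interleaving with zeros, at odd places -/
def opT : AddMonoid.End (ℕ → ℤ) :=
  AddMonoidHom.mk' (fun f n => if n % 2 = 0 then 0 else f (n / 2)) (by
    intro f g
    funext n
    by_cases h : n % 2 = 0 <;> simp [h])

/-- even part -/
def opS' : AddMonoid.End (ℕ → ℤ) :=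
  AddMonoidHom.mk' (fun f n => f (2 * n)) (by intro f g; rfl)

/-- odd part -/
def opT' : AddMonoid.End (ℕ → ℤ) :=
  AddMonoidHom.mk' (fun f n => f (2 * n + 1)) (by intro f g; rfl)

theorem rel1 : opS' * opS = 1 := by
  refine AddMonoidHom.ext fun f => funext fun n => ?_
  have h2 : 2 * n / 2 = n := by omega
  have h3 : 2 * n % 2 = 0 := by omega
  change (if 2 * n % 2 = 0 then f (2 * n / 2) else 0) = f n
  rw [if_pos h3, h2]

theorem rel2 : opT' * opT = 1 := by
  refine AddMonoidHom.ext fun f => funext fun n => ?_
  have h2 : (2 * n + 1) / 2 = n := by omega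
  have h3 : ¬ ((2 * n + 1) % 2 = 0) := by omega
  change (if (2 * n + 1) % 2 = 0 then 0 else f ((2 * n + 1) / 2)) = f n
  rw [if_neg h3, h2]

theorem rel3 : opS' * opT = 0 := by
  refine AddMonoidHom.ext fun f => funext fun n => ?_
  have h3 : 2 * n % 2 = 0 := by omega
  change (if 2 * n % 2 = 0 then 0 else f (2 * n / 2)) = 0
  rw [if_pos h3]

theorem rel4 : opT' * opS = 0 := by
  refine AddMonoidHom.ext fun f => funext fun n => ?_
  have h3 : ¬ ((2 * n + 1) % 2 = 0) := by omega
  change (if (2 * n + 1) % 2 = 0 then f ((2 * n + 1) / 2) else 0) = 0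
  rw [if_neg h3]

theorem main : ∃ (R : Type) (_ : Ring R), Nontrivial R ∧
    (∃ S : Finset R, Subring.closure (S : Set R) = ⊤) ∧ Nonempty (R ≃+* R × R) := by
  classical
  let G : Set (ℕ → AddMonoid.End (ℕ → ℤ)) := gens opS opT opS' opT'
  let R := Subring.closure G
  have hG : G.Finite := by simp [G, gens]
  have : Nontrivial (AddMonoid.End (ℕ → ℤ)) := by
    refine ⟨1, 0, fun h => ?_⟩
    have := congrFun (DFunLike.congr_fun h (fun _ => 1)) 0
    simp at this
  refine ⟨R, inferInstance, inferInstance, ?_, ⟨?_⟩⟩
  · have hf : ((↑) ⁻¹' G : Set R).Finite := hG.preimage Subtype.val_injective.injOn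
    refine ⟨hf.toFinset, ?_⟩
    rw [Set.Finite.coe_toFinset]
    rw [eq_top_iff]
    rintro ⟨x, hx⟩ -
    have h1 : (Subring.closure ((↑) ⁻¹' G : Set R)).map R.subtype = R := by
      rw [RingHom.map_closure]
      congr 1
      ext y
      constructor
      · rintro ⟨z, hz, rfl⟩
        exact hz
      · intro hy
        exact ⟨⟨y, Subring.subset_closure hy⟩, hy, rfl⟩
    have h2 : x ∈ (Subring.closure ((↑) ⁻¹' G : Set R)).map R.subtype := by rw [h1]; exact hx
    obtain ⟨z, hz, rfl⟩ := h2
    exact hz
  · exact (((splitEquiv _).subringMap (s := R)).trans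
      (RingEquiv.subringCongr (map_closure opS opT opS' opT' rel1 rel2 rel3 rel4))).trans
      (Subring.prodEquiv R R)

end Pool.Agent.H652Z.RingSquare
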